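import Pool.Agent.Lib.MP_bb8441_an.Ch.Main

/-!
# A Banach space which supports a chaotic operator supports a frequently hypercyclic operator

Let `T` be a chaotic operator on a complex or real Banach space `X`. Then some operator `S` on `X`
is both chaotic and frequently hypercyclic. If the spectrum of `T` has empty interior, or if its
part on the unit circle has only finitely many isolated points, then `S` can be found in each
neighbourhood of `T`.

The definitions `Hypercyclic`, `Chaotic`, `lowerDensity`, `FrequentlyHypercyclic` are in the file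
`Pool/Agent/Lib/MP_bb8441_an/Defs.lean`; `complexSpectrum` (the spectrum of the complexification of
an operator on a real space) is in `Pool/Agent/Lib/MP_bb8441_an/Complexify.lean`.
-/

set_option autoImplicit false

namespace Pool.Agent.Results.MP_bb8441_an.ChaoticSupportsFHC

open Pool.Agent.Lib.MP_bb8441_an

/-- The isolated points of the part of `σ` on the unit circle. -/
def isolatedUnimodular (σ : Set ℂ) : Set ℂ :=
  {c : ℂ | c ∈ σ ∧ ‖c‖ = 1 ∧ ∃ δ > 0, ∀ b ∈ σ, ‖b‖ = 1 → ‖b - c‖ < δ → b = c}

universe u

theorem result :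
    (∀ (X : Type u) [NormedAddCommGroup X] [NormedSpace ℂ X] [CompleteSpace X]
      (T : X →L[ℂ] X), Chaotic T →
        (∃ S : X →L[ℂ] X, Chaotic S ∧ FrequentlyHypercyclic S) ∧
        (interior (spectrum ℂ T) = ∅ ∨ (isolatedUnimodular (spectrum ℂ T)).Finite →
          ∀ ε : ℝ, 0 < ε → ∃ S : X →L[ℂ] X, ‖S - T‖ < ε ∧ Chaotic S ∧ FrequentlyHypercyclic S)) ∧
    (∀ (X : Type u) [NormedAddCommGroup X] [NormedSpace ℝ X] [CompleteSpace X]
      (T : X →L[ℝ] X), Chaotic T →
        (∃ S : X →L[ℝ] X, Chaotic S ∧ FrequentlyHypercyclic S) ∧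
        (interior (complexSpectrum T) = ∅ ∨ (isolatedUnimodular (complexSpectrum T)).Finite →
          ∀ ε : ℝ, 0 < ε → ∃ S : X →L[ℝ] X, ‖S - T‖ < ε ∧ Chaotic S ∧
            FrequentlyHypercyclic S)) := by
  refine ⟨?_, ?_⟩
  · intro X _ _ _ T hT
    refine ⟨Ch.complex_main T hT, ?_⟩
    rintro (hint | hiso) ε hε
    · exact Ch.complex_near T hT (by rw [hint]; exact Set.not_nonempty_empty) ε hε
    · exact main_chaotic T hT hiso ε hε
  · intro X _ _ _ T hT
    refine ⟨Ch.real_main T hT, ?_⟩
    rintro (hint | hiso) ε hε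
    · exact Ch.real_near T hT (by rw [hint]; exact Set.not_nonempty_empty) ε hε
    · exact real_chaotic T hT hiso ε hε

end Pool.Agent.Results.MP_bb8441_an.ChaoticSupportsFHC
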