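import Pool.Agent.Lib.MP_bb8441_an.Q2Main

/-!
# Frequently hypercyclic operators with spanning unimodular eigenvectors are limits of chaotic ones

Let `X` be a complex Banach space and let `T` be a hypercyclic (for example: a frequently
hypercyclic) operator on `X` whose eigenvectors with unimodular eigenvalues span a dense subspace.
Then `T` is a norm limit of chaotic operators. In particular `X` supports a chaotic operator.

The definitions `Hypercyclic`, `Chaotic` are in the file `Pool/Agent/Lib/MP_bb8441_an/Defs.lean`.
-/

set_option autoImplicit false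

namespace Pool.Agent.Results.MP_bb8441_an.LimitOfChaotic

open Pool.Agent.Lib.MP_bb8441_an

theorem result (X : Type*) [NormedAddCommGroup X] [NormedSpace ℂ X] [CompleteSpace X]
    (T : X →L[ℂ] X) (hT : Hypercyclic T)
    (hd : Dense (Submodule.span ℂ {x : X | ∃ c : ℂ, ‖c‖ = 1 ∧ T x = c • x} : Set X))
    (ε : ℝ) (hε : 0 < ε) :
    ∃ S : X →L[ℂ] X, ‖S - T‖ < ε ∧ Chaotic S :=
  q2_main T hT hd ε hε

end Pool.Agent.Results.MP_bb8441_an.LimitOfChaotic
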